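import Pool.Agent.H27.L1.H68.GHY.Targets

/-!
Board ghy, row CGB: the coefficients of the matrices.
-/

open Pool.Agent.H27.L1.H34.GM Pool.Agent.H27.L1.H34.GZ Pool.Agent.H27.L1.H34.GU Pool.Agent.H27.L1.H34.GA
open Pool.Agent.H27.L1.H68.GHY

namespace Pool.Agent.H27.L1.H13.GHY

theorem fin_sub (h : T_IDX) {m : ℕ} {γ : ZM m} (hd : γ.det ≠ 0) :
    Finite {M : AddSubgroup (Fin m → ℤ) // ∀ i, γ i ∈ M} :=
  ((h m).2.2.2.2 γ hd).1

theorem idx_dvd (h : T_IDX) {m : ℕ} {γ : ZM m} (hd : γ.det ≠ 0) {M : AddSubgroup (Fin m → ℤ)}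
    (hM : ∀ i, γ i ∈ M) : M.index ∣ γ.det.natAbs := by
  rw [← (h m).1 γ hd]
  refine AddSubgroup.index_dvd_of_le ?_
  rw [AddSubgroup.closure_le]
  rintro _ ⟨i, rfl⟩
  exact hM i

theorem det_unit {m : ℕ} {u : ZM m} (hu : IsUnit u) : u.det.natAbs = 1 := by
  have h1 : IsUnit u.det := (Matrix.isUnit_iff_isUnit_det u).1 hu
  exact Int.isUnit_iff_natAbs_eq.1 h1

theorem rows_unit {m : ℕ} {u : ZM m} (hu : IsUnit u) (γ : ZM m) (M : AddSubgroup (Fin m → ℤ)) :
    (∀ i, (u * γ) i ∈ M) ↔ ∀ i, γ i ∈ M := by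
  have key : ∀ v β : ZM m, (∀ i, β i ∈ M) → ∀ i, (v * β) i ∈ M := by
    intro v β hβ i
    have h1 : (v * β) i = ∑ j, v i j • β j := by
      ext k
      simp [Matrix.mul_apply, Finset.sum_apply]
    rw [h1]
    exact AddSubgroup.sum_mem _ fun j _ => AddSubgroup.zsmul_mem _ (hβ j) _
  constructor
  · intro h
    obtain ⟨w, rfl⟩ := hu
    have h2 := key (↑w⁻¹ : ZM m) ((w : ZM m) * γ) h
    rw [← Matrix.mul_assoc, Units.inv_mul, Matrix.one_mul] at h2
    exact h2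
  · exact key u γ

theorem pf_CGB (h : T_IDX) : T_CGB := by
  intro m y a hm hy ha γ hd
  have := fin_sub h hd
  have := Fintype.ofFinite {M : AddSubgroup (Fin m → ℤ) // ∀ i, γ i ∈ M}
  have hsum : cg a γ = ∑ M : {M : AddSubgroup (Fin m → ℤ) // ∀ i, γ i ∈ M},
      a (M : AddSubgroup (Fin m → ℤ)).index *
        a (γ.det.natAbs / (M : AddSubgroup (Fin m → ℤ)).index) := by
    unfold cg
    exact tsum_fintype _
  refine ⟨?_, ?_, ?_⟩
  · rw [hsum]
    refine (norm_sum_le _ _).trans ?_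
    have h1 : ∀ M : {M : AddSubgroup (Fin m → ℤ) // ∀ i, γ i ∈ M},
        ‖a (M : AddSubgroup (Fin m → ℤ)).index *
          a (γ.det.natAbs / (M : AddSubgroup (Fin m → ℤ)).index)‖ ≤ 1 := by
      intro M
      rw [norm_mul]
      exact mul_le_one₀ (ha.bd _) (norm_nonneg _) (ha.bd _)
    refine (Finset.sum_le_sum fun M _ => h1 M).trans ?_
    rw [Finset.sum_const, nsmul_eq_mul, mul_one]
    unfold NL
    rw [Nat.card_eq_fintype_card, Finset.card_univ]
  · intro u hu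
    have hdet : (u * γ).det.natAbs = γ.det.natAbs := by
      rw [Matrix.det_mul, Int.natAbs_mul, det_unit hu, one_mul]
    unfold cg
    rw [hdet]
    exact (Equiv.subtypeEquivRight (rows_unit hu γ)).tsum_eq
      (fun M : {M : AddSubgroup (Fin m → ℤ) // ∀ i, γ i ∈ M} =>
        a (M : AddSubgroup (Fin m → ℤ)).index *
          a (γ.det.natAbs / (M : AddSubgroup (Fin m → ℤ)).index))
  · intro hne
    rw [hsum] at hne
    obtain ⟨M, -, hM⟩ := Finset.exists_ne_zero_of_sum_ne_zero hne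
    have h1 := ha.supp _ (left_ne_zero_of_mul hM)
    have h2 := ha.supp _ (right_ne_zero_of_mul hM)
    have h3 : (M : AddSubgroup (Fin m → ℤ)).index *
        (γ.det.natAbs / (M : AddSubgroup (Fin m → ℤ)).index) = γ.det.natAbs :=
      Nat.mul_div_cancel' (idx_dvd h hd M.2)
    have h4 : (γ.det.natAbs : ℝ) = ((M : AddSubgroup (Fin m → ℤ)).index : ℝ) *
        ((γ.det.natAbs / (M : AddSubgroup (Fin m → ℤ)).index : ℕ) : ℝ) := by
      rw [← Nat.cast_mul, h3]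
    rw [h4]
    constructor
    · nlinarith [h1.1, h2.1, hy, mul_pos (sub_pos.2 h1.1) (sub_pos.2 h2.1)]
    · nlinarith [h1.1, h2.1, hy, h1.2, h2.2]

end Pool.Agent.H27.L1.H13.GHY
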